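import Pool.Agent.TH250.Z3.Stm

/-!
# Project Z3 (second design): the numerical values `G5`, `G6`
-/

open Polynomial Pool.Agent.H337R2 Filter Topology

namespace Pool.Agent.TH999.Z3

open Pool.Agent.TH250.Z3

noncomputable section

lemma log13_eq : Real.log 13 = 2 * Real.log 2 + 4 * Real.log 3 - 2 * Real.log 5 +
    Real.log (1 + 1 / 324) := by
  have h1 : Real.log (1 + 1 / 324) = Real.log 325 - Real.log 324 := by
    rw [show (1 : ℝ) + 1 / 324 = 325 / 324 by norm_num]
    exact Real.log_div (by norm_num) (by norm_num)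
  have h2 : Real.log 325 = 2 * Real.log 5 + Real.log 13 := by
    rw [show (325 : ℝ) = 5 ^ 2 * 13 by norm_num, Real.log_mul (by norm_num) (by norm_num),
      Real.log_pow]; norm_num
  have h3 : Real.log 324 = 2 * Real.log 2 + 4 * Real.log 3 := by
    rw [show (324 : ℝ) = 2 ^ 2 * 3 ^ 4 by norm_num, Real.log_mul (by norm_num) (by norm_num),
      Real.log_pow, Real.log_pow]; norm_num
  rw [h1, h2, h3]
  ring

lemma log43_eq : Real.log 43 = 7 * Real.log 2 - Real.log 3 + Real.log (1 + 1 / 128) := by
  have h1 : Real.log (1 + 1 / 128) = Real.log 129 - Real.log 128 := by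
    rw [show (1 : ℝ) + 1 / 128 = 129 / 128 by norm_num]
    exact Real.log_div (by norm_num) (by norm_num)
  have h2 : Real.log 129 = Real.log 3 + Real.log 43 := by
    rw [show (129 : ℝ) = 3 * 43 by norm_num, Real.log_mul (by norm_num) (by norm_num)]
  have h3 : Real.log 128 = 7 * Real.log 2 := by
    rw [show (128 : ℝ) = 2 ^ 7 by norm_num, Real.log_pow]; norm_num
  rw [h1, h2, h3]
  ring

lemma up (x : ℝ) (hx : 0 < x) : Real.log (1 + x) ≤ x := by
  have := Real.log_le_sub_one_of_pos (show 0 < 1 + x by linarith)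
  linarith

lemma PhiG_eq : PhiG = -(22 / 3) * Real.log 2 + (18 - 5 / 6 - 5 / 3 - 1 / 3 - 13 / 3 - 8 / 3 +
    20 / 3 + 43 / 6) * Real.log 3 + (-5 + 5 / 6 + 5 / 3 - 20 / 3) * Real.log 5 +
    13 / 3 * Real.log 13 - 43 / 6 * Real.log 43 := by
  have e1 : Real.log (9 / 2) = 2 * Real.log 3 - Real.log 2 := by
    rw [Real.log_div (by norm_num) (by norm_num), show (9 : ℝ) = 3 ^ 2 by norm_num, Real.log_pow]
    norm_num
  have e2 : Real.log (5 / 2) = Real.log 5 - Real.log 2 :=
    Real.log_div (by norm_num) (by norm_num)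
  have e6 : Real.log 6 = Real.log 2 + Real.log 3 := by
    rw [show (6 : ℝ) = 2 * 3 by norm_num, Real.log_mul (by norm_num) (by norm_num)]
  have e3 : Real.log (5 / 6) = Real.log 5 - (Real.log 2 + Real.log 3) := by
    rw [Real.log_div (by norm_num) (by norm_num), e6]
  have e4 : Real.log (5 / 3) = Real.log 5 - Real.log 3 :=
    Real.log_div (by norm_num) (by norm_num)
  have e5 : Real.log (1 / 3) = -Real.log 3 := by
    rw [Real.log_div (by norm_num) (by norm_num), Real.log_one]; ring
  have e7 : Real.log (13 / 6) = Real.log 13 - (Real.log 2 + Real.log 3) := by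
    rw [Real.log_div (by norm_num) (by norm_num), e6]
  have e8 : Real.log (8 / 3) = 3 * Real.log 2 - Real.log 3 := by
    rw [Real.log_div (by norm_num) (by norm_num), show (8 : ℝ) = 2 ^ 3 by norm_num, Real.log_pow]
    norm_num
  have e9 : Real.log (20 / 3) = 2 * Real.log 2 + Real.log 5 - Real.log 3 := by
    rw [Real.log_div (by norm_num) (by norm_num), show (20 : ℝ) = 2 ^ 2 * 5 by norm_num,
      Real.log_mul (by norm_num) (by norm_num), Real.log_pow]
    norm_num
  have e10 : Real.log (43 / 6) = Real.log 43 - (Real.log 2 + Real.log 3) := by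
    rw [Real.log_div (by norm_num) (by norm_num), e6]
  unfold PhiG xl
  rw [e1, e2, e3, e4, e5, e7, e8, e9, e10]
  ring

/-- `G5`; true value `-26.597163` -/
theorem G5 : StG5 := by
  unfold StG5
  rw [PhiG_eq, log13_eq, log43_eq]
  have h13 := up (1 / 324) (by norm_num)
  have h43 := Real.le_log_one_add_of_nonneg (x := 1 / 128) (by norm_num)
  have h2 := Real.log_two_gt_d9
  have h2' := Real.log_two_lt_d9
  have h3 := Real.log_three_gt_d9
  have h3' := Real.log_three_lt_d9
  have h5 := Real.log_five_gt_d9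
  have h5' := Real.log_five_lt_d9
  have h43' : (2 : ℝ) / 257 ≤ Real.log (1 + 1 / 128) := by
    refine le_trans (le_of_eq ?_) h43
    norm_num
  linarith

/-- `G6`; true value `31.07713` -/
theorem G6 : StG6 := by
  unfold StG6 UU
  rw [PhiG_eq, log13_eq, log43_eq]
  have h43 := up (1 / 128) (by norm_num)
  have h13 := Real.le_log_one_add_of_nonneg (x := 1 / 324) (by norm_num)
  have h2 := Real.log_two_gt_d9
  have h2' := Real.log_two_lt_d9
  have h3 := Real.log_three_gt_d9
  have h3' := Real.log_three_lt_d9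
  have h5 := Real.log_five_gt_d9
  have h5' := Real.log_five_lt_d9
  have h13' : (2 : ℝ) / 649 ≤ Real.log (1 + 1 / 324) := by
    refine le_trans (le_of_eq ?_) h13
    norm_num
  push_cast
  linarith

end

end Pool.Agent.TH999.Z3
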